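import Mathlib

/-!
MP_a51306_an, partial result: for a countable direct limit of groups that are Hilbert-Schmidt
stable (or only Hilbert-Schmidt improvable), matricial stability implies Hilbert-Schmidt
stability.
-/

set_option autoImplicit false
open Filter Topology
open scoped Pointwise

namespace Pool.Agent.Results.MP_a51306_an.DirectLimits

/-- The square of the normalized Hilbert-Schmidt norm of a `k × k` matrix. -/
noncomputable def hs {k : ℕ} (A : Matrix (Fin k) (Fin k) ℂ) : ℝ :=
  (Matrix.trace (Matrix.conjTranspose A * A)).re / (k : ℝ)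

/-- The operator norm of a `k × k` matrix. -/
noncomputable def op {k : ℕ} (A : Matrix (Fin k) (Fin k) ℂ) : ℝ :=
  ‖Matrix.toEuclideanCLM (𝕜 := ℂ) A‖

/-- `φ` is an asymptotic homomorphism for the size function `N`. -/
def AsympHom {H : Type} [Group H] (N : ∀ {k : ℕ}, Matrix (Fin k) (Fin k) ℂ → ℝ)
    {k : ℕ → ℕ} (φ : ∀ n : ℕ, H → Matrix.unitaryGroup (Fin (k n)) ℂ) : Prop :=
  ∀ g h : H, Tendsto (fun n : ℕ => N ((φ n (g * h)).val - (φ n g).val * (φ n h).val)) atTop (𝓝 0)

/-- `φ` and `ψ` are asymptotically equal for the size function `N`. -/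
def AsympEq {H : Type} (N : ∀ {k : ℕ}, Matrix (Fin k) (Fin k) ℂ → ℝ)
    {k : ℕ → ℕ} (φ ψ : ∀ n : ℕ, H → Matrix.unitaryGroup (Fin (k n)) ℂ) : Prop :=
  ∀ g : H, Tendsto (fun n : ℕ => N ((φ n g).val - (ψ n g).val)) atTop (𝓝 0)

/-- The group `H` is stable for the size function `N`. -/
def Stable (N : ∀ {k : ℕ}, Matrix (Fin k) (Fin k) ℂ → ℝ) (H : Type) [Group H] : Prop :=
  ∀ (k : ℕ → ℕ) (φ : ∀ n : ℕ, H → Matrix.unitaryGroup (Fin (k n)) ℂ), AsympHom N φ →
    ∃ ρ : ∀ n : ℕ, H →* Matrix.unitaryGroup (Fin (k n)) ℂ, AsympEq N φ (fun n g => ρ n g)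

/-- The group `H` is Hilbert-Schmidt improvable: every asymptotic homomorphism for the normalized
Hilbert-Schmidt norm is asymptotically equal, for this norm, to an asymptotic homomorphism for the
operator norm. Every Hilbert-Schmidt stable group has this property. -/
def Improvable (H : Type) [Group H] : Prop :=
  ∀ (k : ℕ → ℕ) (φ : ∀ n : ℕ, H → Matrix.unitaryGroup (Fin (k n)) ℂ), AsympHom hs φ →
    ∃ ψ : ∀ n : ℕ, H → Matrix.unitaryGroup (Fin (k n)) ℂ, AsympHom op ψ ∧ AsympEq hs φ ψ

lemma trace_eq {k : ℕ} (A : Matrix (Fin k) (Fin k) ℂ) :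
    (Matrix.trace (Matrix.conjTranspose A * A)).re = ∑ j, ∑ i, ‖A i j‖ ^ 2 := by
  rw [Matrix.trace, Complex.re_sum]
  refine Finset.sum_congr rfl fun j _ => ?_
  rw [Matrix.diag_apply, Matrix.mul_apply, Complex.re_sum]
  refine Finset.sum_congr rfl fun i _ => ?_
  rw [Matrix.conjTranspose_apply, RCLike.star_def, mul_comm, Complex.mul_conj, Complex.ofReal_re,
    Complex.normSq_eq_norm_sq]

lemma hs_nonneg {k : ℕ} (A : Matrix (Fin k) (Fin k) ℂ) : 0 ≤ hs A := by
  unfold hs
  rw [trace_eq]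
  positivity

lemma hs_add {k : ℕ} (A B : Matrix (Fin k) (Fin k) ℂ) : hs (A + B) ≤ 2 * (hs A + hs B) := by
  unfold hs
  rw [trace_eq, trace_eq, trace_eq, ← add_div, ← mul_div_assoc, ← Finset.sum_add_distrib,
    Finset.mul_sum]
  refine div_le_div_of_nonneg_right (Finset.sum_le_sum fun j _ => ?_) (Nat.cast_nonneg _)
  rw [← Finset.sum_add_distrib, Finset.mul_sum]
  refine Finset.sum_le_sum fun i _ => ?_
  rw [Matrix.add_apply]
  have h1 := norm_add_le (A i j) (B i j)
  have h2 := norm_nonneg (A i j + B i j)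
  nlinarith [sq_nonneg (‖A i j‖ - ‖B i j‖), norm_nonneg (A i j), norm_nonneg (B i j)]

lemma hs_le {k : ℕ} (A : Matrix (Fin k) (Fin k) ℂ) : hs A ≤ op A ^ 2 := by
  unfold hs op
  rw [trace_eq]
  rcases Nat.eq_zero_or_pos k with hk | hk
  · subst hk; simp
  rw [div_le_iff₀ (by exact_mod_cast hk)]
  have h1 : ∀ j : Fin k, ∑ i, ‖A i j‖ ^ 2 ≤ ‖Matrix.toEuclideanCLM (𝕜 := ℂ) A‖ ^ 2 := by
    intro j
    have h2 := (Matrix.toEuclideanCLM (𝕜 := ℂ) A).le_opNorm (EuclideanSpace.single j 1)
    rw [PiLp.norm_single, norm_one, mul_one] at h2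
    have h3 : ‖(Matrix.toEuclideanCLM (𝕜 := ℂ) A) (EuclideanSpace.single j 1)‖ ^ 2
        = ∑ i, ‖A i j‖ ^ 2 := by
      rw [EuclideanSpace.norm_sq_eq]
      refine Finset.sum_congr rfl fun i _ => ?_
      congr 2
      rw [Matrix.ofLp_toEuclideanCLM]
      simp
    rw [← h3]
    exact pow_le_pow_left₀ (norm_nonneg _) h2 2
  calc ∑ j, ∑ i, ‖A i j‖ ^ 2 ≤ ∑ _j : Fin k, ‖Matrix.toEuclideanCLM (𝕜 := ℂ) A‖ ^ 2 :=
        Finset.sum_le_sum fun j _ => h1 j
    _ = ‖Matrix.toEuclideanCLM (𝕜 := ℂ) A‖ ^ 2 * k := by simp [mul_comm]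

lemma asympEq_hs_of_op {H : Type} {k : ℕ → ℕ}
    {φ ψ : ∀ n : ℕ, H → Matrix.unitaryGroup (Fin (k n)) ℂ} (h : AsympEq op φ ψ) :
    AsympEq hs φ ψ := by
  intro g
  have h1 := (h g).pow 2
  rw [zero_pow two_ne_zero] at h1
  exact squeeze_zero (fun n => hs_nonneg _) (fun n => hs_le _) h1

lemma asympEq_trans {H : Type} {k : ℕ → ℕ}
    {φ ψ χ : ∀ n : ℕ, H → Matrix.unitaryGroup (Fin (k n)) ℂ} (h : AsympEq hs φ ψ)
    (h' : AsympEq hs ψ χ) : AsympEq hs φ χ := by
  intro g
  have h1 := ((h g).add (h' g)).const_mul 2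
  rw [add_zero, mul_zero] at h1
  refine squeeze_zero (fun n => hs_nonneg _) (fun n => ?_) h1
  have h2 : (φ n g).val - (χ n g).val
      = ((φ n g).val - (ψ n g).val) + ((ψ n g).val - (χ n g).val) := by abel
  rw [h2]
  exact hs_add _ _

/-- Every Hilbert-Schmidt stable group is improvable. -/
theorem improvable_of_stable (H : Type) [Group H] (h : Stable hs H) : Improvable H := by
  intro k φ hφ
  obtain ⟨ρ, hρ⟩ := h k φ hφ
  refine ⟨fun n g => ρ n g, fun a b => ?_, hρ⟩
  have : (fun n : ℕ => op ((ρ n (a * b)).val - (ρ n a).val * (ρ n b).val)) = fun _ => 0 := by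
    funext n
    rw [map_mul]
    simp [op]
  rw [this]
  exact tendsto_const_nhds

/-- Countable intersections of conditions that hold eventually, along a slowly growing index. -/
lemma diagonal (P : ℕ → ℕ → Prop) (hP : ∀ m, ∀ᶠ n in atTop, P m n) :
    ∃ m : ℕ → ℕ, Tendsto m atTop atTop ∧ ∀ᶠ n in atTop, P (m n) n := by
  choose N hN using fun m => eventually_atTop.1 (hP m)
  -- a monotone majorant
  set M : ℕ → ℕ := fun m => m + ∑ i ∈ Finset.range (m + 1), N i with hM
  have hNM : ∀ m, N m ≤ M m := by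
    intro m
    have : N m ≤ ∑ i ∈ Finset.range (m + 1), N i :=
      Finset.single_le_sum (f := N) (fun i _ => Nat.zero_le _)
        (Finset.mem_range.2 (Nat.lt_add_one m))
    simp only [hM]
    omega
  have hmM : ∀ m, m ≤ M m := fun m => Nat.le_add_right _ _
  refine ⟨fun n => Nat.findGreatest (fun m => M m ≤ n) n, ?_, ?_⟩
  · rw [tendsto_atTop]
    intro b
    filter_upwards [eventually_ge_atTop (M b)] with n hn
    exact Nat.le_findGreatest ((hmM b).trans hn) hn
  · filter_upwards [eventually_ge_atTop (M 0)] with n hn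
    have h1 : M (Nat.findGreatest (fun m => M m ≤ n) n) ≤ n :=
      Nat.findGreatest_spec (P := fun m => M m ≤ n) (Nat.zero_le n) hn
    exact hN _ _ ((hNM _).trans h1)

/-- `G` is locally a retract of groups that are Hilbert-Schmidt stable or improvable: for every
finite subset `F` of `G` there are such a group `H`, a homomorphism `p : H → G` and a map
`s : G → H` with `p (s g) = g` for `g` in `F` and `s (g * h) = s g * s h` for `g, h` in `F`. -/
def LocallyRetract (G : Type) [Group G] : Prop :=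
  ∀ F : Finset G, ∃ (H : Type) (_ : Group H) (p : H →* G) (s : G → H),
    (Stable hs H ∨ Improvable H) ∧ (∀ g ∈ F, p (s g) = g) ∧
      ∀ g ∈ F, ∀ h ∈ F, s (g * h) = s g * s h

/-- `G` is the direct limit of groups that are Hilbert-Schmidt stable or improvable, over a directed
preorder `ι`, with groups `H i`, connecting homomorphisms `f i j : H i → H j` for `i ≤ j` (not
necessarily injective) and the homomorphisms `p i : H i → G` to the limit: the maps are compatible,
every element of `G` comes from some `H i`, and an element of `H i` which becomes trivial in `G` is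
already trivial in some `H j`, `j ≥ i`. -/
def IsLimit (G : Type) [Group G] : Prop :=
  ∃ (ι : Type) (_ : Preorder ι) (_ : Nonempty ι) (H : ι → Type) (_ : ∀ i : ι, Group (H i))
    (f : ∀ i j : ι, i ≤ j → (H i →* H j)) (p : ∀ i : ι, H i →* G),
    (∀ i : ι, Stable hs (H i) ∨ Improvable (H i)) ∧
    (∀ i j : ι, ∃ k : ι, i ≤ k ∧ j ≤ k) ∧
    (∀ (i j k : ι) (hij : i ≤ j) (hjk : j ≤ k) (x : H i),
      f j k hjk (f i j hij x) = f i k (le_trans hij hjk) x) ∧
    (∀ (i j : ι) (hij : i ≤ j) (x : H i), p j (f i j hij x) = p i x) ∧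
    (∀ g : G, ∃ (i : ι) (x : H i), p i x = g) ∧
    ∀ (i : ι) (x : H i), p i x = 1 → ∃ (j : ι) (hij : i ≤ j), f i j hij x = 1

theorem improvable_of_locallyRetract (G : Type) [Group G] [Countable G]
    (hG : LocallyRetract G) : Improvable G := by
  intro k φ hφ
  obtain ⟨e, he⟩ := exists_surjective_nat G
  -- the finite sets
  classical
  set F : ℕ → Finset G := fun m => (Finset.range (m + 1)).image e with hF
  have hFe : ∀ i m, i ≤ m → e i ∈ F m := fun i m h =>
    Finset.mem_image.2 ⟨i, Finset.mem_range.2 (Nat.lt_succ_of_le h), rfl⟩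
  -- one improved map for every finite set
  have hI : ∀ F : Finset G, ∃ ψ : ∀ n : ℕ, G → Matrix.unitaryGroup (Fin (k n)) ℂ,
      (∀ g ∈ F, ∀ h ∈ F, Tendsto (fun n : ℕ =>
        op ((ψ n (g * h)).val - (ψ n g).val * (ψ n h).val)) atTop (𝓝 0)) ∧
      (∀ g ∈ F, Tendsto (fun n : ℕ => hs ((φ n g).val - (ψ n g).val)) atTop (𝓝 0)) := by
    intro F
    obtain ⟨H, hH, p, s, hst, hps, hmul⟩ := hG F
    have hI' : Improvable H := hst.elim (improvable_of_stable H) id
    obtain ⟨ψ, hψ, hφψ⟩ := hI' k (fun n x => φ n (p x)) (fun x y => by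
      have := hφ (p x) (p y)
      simpa only [map_mul] using this)
    refine ⟨fun n g => ψ n (s g), fun g hg h hh => ?_, fun g hg => ?_⟩
    · have := hψ (s g) (s h)
      rw [← hmul g hg h hh] at this
      exact this
    · have := hφψ (s g)
      simp only [hps g hg] at this
      exact this
  choose ψ hψ hφψ using fun m => hI (F m)
  -- the eventual conditions
  set P : ℕ → ℕ → Prop := fun m n =>
    (∀ g ∈ F m, ∀ h ∈ F m,
      op ((ψ m n (g * h)).val - (ψ m n g).val * (ψ m n h).val) < 1 / ((m : ℝ) + 1)) ∧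
    (∀ g ∈ F m, hs ((φ n g).val - (ψ m n g).val) < 1 / ((m : ℝ) + 1)) with hP
  have hPm : ∀ m, ∀ᶠ n in atTop, P m n := by
    intro m
    have hpos : (0 : ℝ) < 1 / ((m : ℝ) + 1) := by positivity
    refine Filter.Eventually.and ?_ ?_
    · rw [Filter.eventually_all_finset]
      intro g hg
      rw [Filter.eventually_all_finset]
      intro h hh
      exact (hψ m g hg h hh).eventually_lt_const hpos
    · rw [Filter.eventually_all_finset]
      intro g hg
      exact (hφψ m g hg).eventually_lt_const hpos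
  obtain ⟨m, hm, hmP⟩ := diagonal P hPm
  have hlim : Tendsto (fun n => 1 / ((m n : ℝ) + 1)) atTop (𝓝 0) :=
    tendsto_one_div_add_atTop_nhds_zero_nat.comp hm
  refine ⟨fun n g => ψ (m n) n g, ?_, ?_⟩
  · intro g h
    obtain ⟨i, rfl⟩ := he g
    obtain ⟨j, rfl⟩ := he h
    refine squeeze_zero' (Eventually.of_forall fun n => norm_nonneg _) ?_ hlim
    filter_upwards [hmP, hm.eventually_ge_atTop (max i j)] with n hn hmn
    exact (hn.1 _ (hFe i (m n) ((le_max_left _ _).trans hmn)) _
      (hFe j (m n) ((le_max_right _ _).trans hmn))).le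
  · intro g
    obtain ⟨i, rfl⟩ := he g
    refine squeeze_zero' (Eventually.of_forall fun n => hs_nonneg _) ?_ hlim
    filter_upwards [hmP, hm.eventually_ge_atTop i] with n hn hmn
    exact (hn.2 _ (hFe i (m n) hmn)).le

theorem q1_of_improvable (G : Type) [Group G] (key : Improvable G) :
    Stable op G → Stable hs G := by
  intro hop k φ hφ
  obtain ⟨ψ, hψ, hφψ⟩ := key k φ hφ
  obtain ⟨ρ, hρ⟩ := hop k ψ hψ
  exact ⟨ρ, asympEq_trans hφψ (asympEq_hs_of_op hρ)⟩

theorem locallyRetract_of_isLimit (G : Type) [Group G] (hG : IsLimit G) : LocallyRetract G := by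
  classical
  obtain ⟨ι, _, hne, H, _, f, p, hP, hdir, hf, hp, hsurj, hker⟩ := hG
  have hfin : ∀ T : Finset ι, ∃ k : ι, ∀ i ∈ T, i ≤ k := by
    intro T
    induction T using Finset.induction_on with
    | empty => exact ⟨hne.some, by simp⟩
    | insert a T _ ih =>
      obtain ⟨k, hk⟩ := ih
      obtain ⟨l, h1, h2⟩ := hdir a k
      refine ⟨l, fun i hi => ?_⟩
      rcases Finset.mem_insert.1 hi with rfl | hi
      · exact h1
      · exact (hk i hi).trans h2
  intro F
  choose σ x hσ using hsurj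
  -- a common index
  obtain ⟨i0, hi0⟩ := hfin ((F ∪ F * F).image σ)
  have hle : ∀ g ∈ F ∪ F * F, σ g ≤ i0 := fun g hg =>
    hi0 _ (Finset.mem_image_of_mem _ hg)
  -- the products
  have hprod : ∀ q ∈ F ×ˢ F, ∃ j, i0 ≤ j ∧ ∀ (h1 : σ (q.1 * q.2) ≤ j)
      (h2 : σ q.1 ≤ j) (h3 : σ q.2 ≤ j),
      f _ j h1 (x (q.1 * q.2)) = f _ j h2 (x q.1) * f _ j h3 (x q.2) := by
    rintro ⟨g, h⟩ hq
    rw [Finset.mem_product] at hq
    have l1 := hle g (Finset.mem_union_left _ hq.1)
    have l2 := hle h (Finset.mem_union_left _ hq.2)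
    have l3 := hle (g * h) (Finset.mem_union_right _ (Finset.mul_mem_mul hq.1 hq.2))
    have e : p i0 ((f _ i0 l3 (x (g * h)))⁻¹ * (f _ i0 l1 (x g) * f _ i0 l2 (x h))) = 1 := by
      rw [map_mul, map_mul, map_inv, hp, hp, hp, hσ, hσ, hσ, inv_mul_cancel]
    obtain ⟨j, hj1, hj⟩ := hker _ _ e
    refine ⟨j, hj1, fun h1 h2 h3 => ?_⟩
    rw [map_mul, map_mul, map_inv, hf, hf, hf, inv_mul_eq_one] at hj
    exact hj
  choose! J hJ1 hJ2 using hprod
  obtain ⟨j1, hj1⟩ := hfin (insert i0 ((F ×ˢ F).image J))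
  have hi0j : i0 ≤ j1 := hj1 _ (Finset.mem_insert_self _ _)
  have hle' : ∀ g ∈ F ∪ F * F, σ g ≤ j1 := fun g hg => (hle g hg).trans hi0j
  refine ⟨H j1, inferInstance, p j1, fun g => if h : σ g ≤ j1 then f _ j1 h (x g) else 1,
    hP j1, ?_, ?_⟩
  · intro g hg
    have l := hle' g (Finset.mem_union_left _ hg)
    simp only
    rw [dif_pos l, hp, hσ]
  · intro g hg h hh
    have l1 := hle' g (Finset.mem_union_left _ hg)
    have l2 := hle' h (Finset.mem_union_left _ hh)
    have l3 := hle' (g * h) (Finset.mem_union_right _ (Finset.mul_mem_mul hg hh))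
    simp only
    rw [dif_pos l1, dif_pos l2, dif_pos l3]
    have hq : (g, h) ∈ F ×ˢ F := Finset.mem_product.2 ⟨hg, hh⟩
    have hJj : J (g, h) ≤ j1 :=
      hj1 _ (Finset.mem_insert_of_mem (Finset.mem_image_of_mem _ hq))
    have hI := hJ1 (g, h) hq
    have m1 := (hle g (Finset.mem_union_left _ hg)).trans hI
    have m2 := (hle h (Finset.mem_union_left _ hh)).trans hI
    have m3 := (hle (g * h)
      (Finset.mem_union_right _ (Finset.mul_mem_mul hg hh))).trans hI
    have := congrArg (f _ j1 hJj) (hJ2 (g, h) hq m3 m1 m2)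
    rw [map_mul, hf, hf, hf] at this
    exact this

/-- **Partial answer to Q1.** (1) Let `G` be a countable group which is locally a retract of
groups that are Hilbert-Schmidt stable or improvable. Then `G` is improvable; if `G` is
matricially stable then it is Hilbert-Schmidt stable.
(2) The same for every countable direct limit of Hilbert-Schmidt stable or improvable groups. -/
theorem result :
    (∀ (G : Type) [Group G] [Countable G], LocallyRetract G →
      Improvable G ∧ (Stable op G → Stable hs G)) ∧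
    (∀ (G : Type) [Group G] [Countable G], IsLimit G →
      Improvable G ∧ (Stable op G → Stable hs G)) := by
  have h1 : ∀ (G : Type) [Group G] [Countable G], LocallyRetract G →
      Improvable G ∧ (Stable op G → Stable hs G) := by
    intro G _ _ hG
    have key := improvable_of_locallyRetract G hG
    exact ⟨key, q1_of_improvable G key⟩
  exact ⟨h1, fun G _ _ hG => h1 G (locallyRetract_of_isLimit G hG)⟩

end Pool.Agent.Results.MP_a51306_an.DirectLimits
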