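import Pool.Agent.HLM.Split
import Pool.Agent.HLM.DIAG
import Pool.Agent.HLM.TWO
import Pool.Agent.HLM.BLK
import Pool.Agent.HLM.PAIR
import Pool.Agent.HLM.PR
import Pool.Agent.HLM.STEP
import Pool.Agent.HLM.ALT
import Pool.Agent.HLM.BNG
import Pool.Agent.HLM.NORM
import Pool.Agent.HLM.AMP
import Pool.Agent.HLM.EMB
import Pool.Agent.HLM.MFC

/-!
MP_a51306_an, partial result: Q1 splits exactly into its two extreme cases, the minimally and the
maximally almost periodic groups, and the first case is equivalent to the statement that every
countable hyperlinear group is MF.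

The definitions are in `Pool.Agent.HLM.Defs` and `Pool.Agent.HLM.Split`.
-/

set_option autoImplicit false

open Filter Topology

namespace Pool.Agent.Results.MP_a51306_an.HyperlinearMF

open Pool.Agent.HLM

/-- **The two halves of Q1.** (1) Q1 holds if and only if it holds for the minimally almost
periodic and for the maximally almost periodic groups; (2) Q1 for the minimally almost periodic
groups is equivalent to: every countable hyperlinear group is MF. -/
theorem result :
    ((∀ (G : Type) [Group G] [Countable G], Stable op G → Stable hs G) ↔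
      (∀ (G : Type) [Group G] [Countable G], MinAP G → Stable op G → Stable hs G) ∧
      (∀ (G : Type) [Group G] [Countable G], MAP G → Stable op G → Stable hs G)) ∧
    ((∀ (G : Type) [Group G] [Countable G], MinAP G → Stable op G → Stable hs G) ↔
      (∀ (G : Type) [Group G] [Countable G], Approx hs G → Approx op G)) := by
  have hT := p_NORM
  have hE : T_EMB := p_EMB (p_BNG p_DIAG
    (p_STEP p_DIAG (p_TWO p_DIAG) p_BLK p_PERM p_PAIR p_PR p_NORM) p_ALT p_PR p_NORM) p_PR p_NORM
  have h2 : (∀ (G : Type) [Group G] [Countable G], MinAP G → Stable op G → Stable hs G) ↔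
      (∀ (G : Type) [Group G] [Countable G], Approx hs G → Approx op G) :=
    ⟨fun h G _ _ => fwd_minAP (p_AMP hT) hE p_MFC hT h G, fun h G _ _ => minAP_of_mf hT h G⟩
  refine ⟨⟨fun h => ⟨fun G _ _ _ => h G, fun G _ _ _ => h G⟩, ?_⟩, h2⟩
  rintro ⟨ha, hb⟩
  exact p_BWD hT (h2.1 ha) hb

end Pool.Agent.Results.MP_a51306_an.HyperlinearMF
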