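import Pool.Agent.SpecFlow.Moves

/-!
MP_a51306_an, partial result: a moving element of a matricially stable group forces the amenability
of the image of its centraliser in every LEF quotient killing it. In particular no product `Γ × Λ`
with `Γ` a non-amenable MF group and `Λ` virtually indicable is matricially stable.

The definitions are in `Pool.Agent.SpecFlow.*`:
* `MatStable G`: `G` is matricially stable (`Transfer.lean`);
* `Amenable Γ`: Følner's condition (`Foelner.lean`);
* `Lef Q`: `Q` is locally embeddable in finite groups (`Geom.lean`);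
* `LocResFin G`: every finitely generated subgroup of `G` is residually finite (`Central.lean`,
  `CentralMF.lean`);
* `MF Γ`: `Γ` is an MF group (`MFGroup.lean`);
* `Moves G z`: the spectrum of `z` moves along a continuous path of unitary matrix representations
  of `G`, or `z` is seen by a real character of a subgroup of finite index (`Flow.lean`,
  `Moves.lean`).
-/

set_option autoImplicit false
open Filter Topology

namespace Pool.Agent.Results.MP_a51306_an.SpectralFlow

open Pool.Agent.SpecFlow

/-- **Moving elements of matricially stable groups have centralisers with amenable images.**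
(1) the theorem; (2) its form for products; (3) its form for central elements; (4) examples. -/
theorem result :
    (∀ (G Q : Type) [Group G] [Countable G] [Group Q], MatStable G → Lef Q →
      ∀ (q : G →* Q) (z : G), q z = 1 → Moves G z →
        Amenable ((Subgroup.centralizer {z}).map q)) ∧
    (∀ (Γ Λ : Type) [Group Γ] [Group Λ] [Countable Γ] [Countable Λ], MatStable (Γ × Λ) →
      (Lef Γ ∨ MF Γ) → (∃ w : Λ, Moves Λ w) →
        Amenable Γ ∧ ((Lef Λ ∨ MF Λ) → (∃ v : Γ, Moves Γ v) → Amenable (Γ × Λ))) ∧
    (∀ (G : Type) [Group G] [Countable G], MatStable G → (LocResFin G ∨ MF G) →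
      ∀ z : G, (∀ g, g * z = z * g) → ∀ χ : G →* Multiplicative ℝ, χ z ≠ 1 → Amenable G) ∧
    (∀ (n : ℕ), 2 ≤ n → ∀ (Λ : Type) [Group Λ] [Countable Λ], (∃ w : Λ, Moves Λ w) →
      ¬ MatStable (Matrix.SpecialLinearGroup (Fin n) ℤ × Λ)) := by
  have h3 : ∀ (Γ Λ : Type) [Group Γ] [Group Λ] [Countable Γ] [Countable Λ], (Lef Γ ∨ MF Γ) →
      (∃ w : Λ, Moves Λ w) → MatStable (Γ × Λ) → Amenable Γ := by
    rintro Γ Λ _ _ _ _ (hΓ | hΓ) ⟨w, hw⟩ h
    · exact amenable_of_prod hΓ w hw.flows h
    · exact amenable_of_prod_mf hΓ w hw.flows h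
  refine ⟨?_, ?_, ?_, ?_⟩
  · intro G Q _ _ _ hG hQ q z hz hf
    exact amenable_of_flows hG hQ q z hz hf.flows
  · intro Γ Λ _ _ _ _ h hΓ hw
    exact ⟨h3 Γ Λ hΓ hw h, fun hΛ hv =>
      (h3 Γ Λ hΓ hw h).prod (h3 Λ Γ hΛ hv (h.of_equiv MulEquiv.prodComm))⟩
  · intro G _ _ h hG z hz χ hχ
    exact amenable_of_central_loc hG z hz χ hχ h
  · rintro n hn Λ _ _ ⟨w, hw⟩
    exact not_matStable_SL_prod hn w hw.flows

end Pool.Agent.Results.MP_a51306_an.SpectralFlow
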